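import Pool.Agent.TH502.PK.Adm

/-!
# Faithful circuit covers for weights in `k ℤ`: the odd `k`

Definitions (`Pool/Agent/TH502/PK/Defs.lean`): finite multigraphs `MG V E`, circuits `IsCircuit`,
edge-cuts `cut`, `Admissible` and `Eulerian` weights, `FaithfulCover`, the property `P_k` (`HasP`),
subdivisions of the Petersen graph in a multigraph (`PetersenSubdivision`).

1. Let `k` be odd. If a finite multigraph `G` contains a subdivision of the Petersen graph, then `G`
   does not have the property `P_k`: there is an admissible eulerian weight of `G` with values
   `0`, `k`, `2 k` which has no faithful circuit cover.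
2. Property `P_1` implies `P_k` for all `k`.
3. Hence, if the theorem of Alspach, Goddyn and Zhang is granted (a bridgeless graph without a
   subdivision of the Petersen graph has the property `P_1`), then for every odd `k` the bridgeless
   graphs with the property `P_k` are exactly the bridgeless graphs without a subdivision of the
   Petersen graph: the question `Q1` is answered for all odd `k`.

Proof of 1: give the paths of the subdivision which belong to a pentagon and a disjoint pentagram the
weight `k`, those of the perfect matching between them the weight `2 k`. All the cuts at the branch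
vertices are tight, so every circuit of a cover which passes through a branch vertex uses the path of
the matching; the even sets of edges of the Petersen graph with this property contain an even number
of the edges of the pentagon; but the total weight `5 k` of the pentagon is odd.
-/

set_option autoImplicit false

namespace Pool.Agent.Results.MP_3c540c_co.OddMultiples

open Pool.Agent.TH502.PK

/-- No edge-cut consists of a single edge. -/
def Bridgeless {V E : Type} [Fintype E] [DecidableEq V] (G : MG V E) : Prop :=
  ∀ X : Finset V, (G.cut X).card ≠ 1

/-- The theorem of Alspach, Goddyn and Zhang (the difficult direction): every finite bridgeless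
multigraph without a subdivision of the Petersen graph has the property `P_1`. -/
def AlspachGoddynZhang : Prop :=
  ∀ (V E : Type) [Fintype V] [Fintype E] [DecidableEq V] [DecidableEq E] (G : MG V E),
    Bridgeless G → IsEmpty (PetersenSubdivision G) → G.HasP 1

theorem result :
    (∀ (V E : Type) [Fintype V] [Fintype E] [DecidableEq V] [DecidableEq E] (G : MG V E) (k : ℕ),
      Odd k → Nonempty (PetersenSubdivision G) →
        ¬ G.HasP k ∧ ∃ w : E → ℕ, (∀ e, w e = 0 ∨ w e = k ∨ w e = 2 * k) ∧ G.Admissible w ∧
          G.Eulerian w ∧ ¬ G.FaithfulCover w) ∧
    (∀ (V E : Type) [Fintype V] [Fintype E] [DecidableEq V] [DecidableEq E] (G : MG V E),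
      G.HasP 1 → ∀ k, G.HasP k) ∧
    (AlspachGoddynZhang →
      ∀ (V E : Type) [Fintype V] [Fintype E] [DecidableEq V] [DecidableEq E] (G : MG V E) (k : ℕ),
        Odd k → Bridgeless G → (G.HasP k ↔ IsEmpty (PetersenSubdivision G))) := by
  have h1 : ∀ (V E : Type) [Fintype V] [Fintype E] [DecidableEq V] [DecidableEq E] (G : MG V E)
      (k : ℕ), Odd k → Nonempty (PetersenSubdivision G) →
        ¬ G.HasP k ∧ ∃ w : E → ℕ, (∀ e, w e = 0 ∨ w e = k ∨ w e = 2 * k) ∧ G.Admissible w ∧
          G.Eulerian w ∧ ¬ G.FaithfulCover w := by
    intro V E _ _ _ _ G k hk ⟨S⟩
    have hv : ∀ e, wt S k e = 0 ∨ wt S k e = k ∨ wt S k e = 2 * k := by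
      intro e
      by_cases hz : ∀ j i, i < S.n j → S.y j i ≠ e
      · exact Or.inl (wt_zero S k e hz)
      · push Not at hz
        obtain ⟨j, i, hi, rfl⟩ := hz
        rw [wt_path S k j i hi]
        have h2 := pw_pos j
        have h3 := pw_le j
        have h4 : pw j = 1 ∨ pw j = 2 := by omega
        rcases h4 with h4 | h4 <;> rw [h4]
        · right
          left
          ring
        · right
          right
          ring
    have hc : ¬ G.FaithfulCover (wt S k) := by
      intro h
      have h2 := not_cover S k h
      rw [Nat.even_iff] at h2
      rw [Nat.odd_iff] at hk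
      omega
    refine ⟨fun h => hc (h _ ?_ (admissible S k) (eulerian S k)), _, hv, admissible S k,
      eulerian S k, hc⟩
    intro e
    rcases hv e with h | h | h <;> rw [h]
    · exact dvd_zero _
    · exact Dvd.intro_left _ rfl
  have h2 : ∀ (V E : Type) [Fintype V] [Fintype E] [DecidableEq V] [DecidableEq E] (G : MG V E),
      G.HasP 1 → ∀ k, G.HasP k := by
    intro V E _ _ _ _ G h k w _ ha he
    exact h w (fun e => one_dvd _) ha he
  refine ⟨h1, h2, ?_⟩
  intro agz V E _ _ _ _ G k hk hb
  constructor
  · intro h
    by_contra hc
    rw [not_isEmpty_iff] at hc
    exact (h1 V E G k hk hc).1 h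
  · intro h
    exact h2 V E G (agz V E G hb h) k

end Pool.Agent.Results.MP_3c540c_co.OddMultiples
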